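import Pool.Agent.W602.RG.Stm
import Pool.Agent.W602.GT.Der

/-!
# RG-DER
-/

set_option autoImplicit false

namespace Pool.Agent.W160.RG.DER

theorem main : Pool.Agent.W602.RG.S_DER := by
  intro k Ω _ _ _ _ θ hθ
  have h1 : AlgebraicIndepOn k id ({θ} : Set Ω) := by
    rw [AlgebraicIndepOn, algebraicIndependent_unique_type_iff]
    exact hθ
  obtain ⟨t, ht, hb⟩ := exists_isTranscendenceBasis_superset h1
  obtain ⟨D, hD⟩ := Pool.Agent.W602.GT.exists_der (fun x : t => (x : Ω)) hb (fun _ => 1)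
  refine ⟨D, ?_⟩
  have h2 := hD ⟨θ, ht rfl⟩
  intro h3
  have h4 : (0 : Ω) = 1 := by
    rw [← h3]; exact h2
  exact zero_ne_one h4

end Pool.Agent.W160.RG.DER
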